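import Pool.Agent.H422R3.Sym.Main

/-!
Consequences for graphs with at least `c N^(2-1/r)` edges.
-/

namespace Pool.Agent.H422R3.Sym

variable {V H : Type} [Fintype V] [Group H] [Fintype H] [MulAction H V]

/-- extremal graphs have a small orbit -/
theorem cor_orbit (hinv : ∀ a : H, a * a = 1) (G : SimpleGraph V) [Nonempty V]
    (hact : ∀ (a : H) (x y : V), G.Adj x y → G.Adj (a • x) (a • y))
    (h : ℕ) (horb : ∀ x : V, h ≤ Nat.card (MulAction.orbit H x)) (r d : ℕ)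
    (hr1 : 1 ≤ r)
    (hr : r ≤ 2 ^ (d + 1)) (hfree : (completeBipartiteGraph (Fin r) (Fin r)).Free G)
    (c : ℝ) (hc : 0 < c)
    (he : c * (Fintype.card V : ℝ) ^ (2 - 1 / (r : ℝ)) ≤ Nat.card G.edgeSet) :
    (h : ℝ) ≤ (2 ^ d / c ^ (2 ^ d)) * (Fintype.card V : ℝ) ^ ((2 ^ d : ℝ) / r) := by
  have hm := main hinv G hact h horb r d hr hfree
  have hV : 0 < Fintype.card V := Fintype.card_pos
  set N : ℝ := (Fintype.card V : ℝ) with hN
  have hNpos : 0 < N := by rw [hN]; exact_mod_cast hV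
  have hm' : (Nat.card G.edgeSet : ℝ) ^ (2 ^ d) * h ≤ 2 ^ d * (N ^ 2) ^ (2 ^ d) := by
    rw [hN]
    exact_mod_cast hm
  have h1 : (c * N ^ (2 - 1 / (r : ℝ))) ^ (2 ^ d) ≤ (Nat.card G.edgeSet : ℝ) ^ (2 ^ d) :=
    pow_le_pow_left₀ (by positivity) he _
  have h2 : (c * N ^ (2 - 1 / (r : ℝ))) ^ (2 ^ d) * h ≤ 2 ^ d * (N ^ 2) ^ (2 ^ d) :=
    le_trans (mul_le_mul_of_nonneg_right h1 (Nat.cast_nonneg h)) hm'
  have h3 : (c * N ^ (2 - 1 / (r : ℝ))) ^ (2 ^ d) * N ^ ((2 ^ d : ℝ) / r) = c ^ (2 ^ d) * (N ^ 2) ^ (2 ^ d) := by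
    rw [mul_pow, mul_assoc]
    congr 1
    rw [← Real.rpow_natCast (N ^ (2 - 1 / (r : ℝ))) (2 ^ d), ← Real.rpow_mul hNpos.le,
      ← Real.rpow_add hNpos, ← pow_mul, ← Real.rpow_natCast N (2 * 2 ^ d)]
    congr 1
    push_cast
    have : (r : ℝ) ≠ 0 := by positivity
    field_simp
    ring
  have hP : 0 < (c * N ^ (2 - 1 / (r : ℝ))) ^ (2 ^ d) := by positivity
  have h4 : (c * N ^ (2 - 1 / (r : ℝ))) ^ (2 ^ d) * h ≤
      (c * N ^ (2 - 1 / (r : ℝ))) ^ (2 ^ d) * ((2 ^ d / c ^ (2 ^ d)) * N ^ ((2 ^ d : ℝ) / r)) := by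
    have : (c * N ^ (2 - 1 / (r : ℝ))) ^ (2 ^ d) * ((2 ^ d / c ^ (2 ^ d)) * N ^ ((2 ^ d : ℝ) / r))
        = (2 ^ d / c ^ (2 ^ d)) * ((c * N ^ (2 - 1 / (r : ℝ))) ^ (2 ^ d) * N ^ ((2 ^ d : ℝ) / r)) := by ring
    rw [this, h3]
    have : (2 : ℝ) ^ d / c ^ (2 ^ d) * (c ^ (2 ^ d) * (N ^ 2) ^ (2 ^ d)) = 2 ^ d * (N ^ 2) ^ (2 ^ d) := by
      field_simp
    rw [this]
    exact h2
  exact le_of_mul_le_mul_left h4 hP

/-- large graphs with a transitive elementary abelian 2-group of automorphisms are not extremal -/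
theorem cor_trans (r : ℕ) (hr : 2 ≤ r) (c : ℝ) (hc : 0 < c) :
    ∃ N₀ : ℕ, ∀ (V H : Type) [Fintype V] [Nonempty V] [Group H] [Fintype H] [MulAction H V]
      (G : SimpleGraph V), (∀ a : H, a * a = 1) →
      (∀ (a : H) (x y : V), G.Adj x y → G.Adj (a • x) (a • y)) →
      (∀ x : V, MulAction.orbit H x = Set.univ) → N₀ ≤ Fintype.card V →
      (completeBipartiteGraph (Fin r) (Fin r)).Free G →
      (Nat.card G.edgeSet : ℝ) < c * (Fintype.card V : ℝ) ^ (2 - 1 / (r : ℝ)) := by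
  -- choose d with 2^d < r ≤ 2^(d+1)
  obtain ⟨d, hd1, hd2⟩ : ∃ d : ℕ, 2 ^ d < r ∧ r ≤ 2 ^ (d + 1) := by
    refine ⟨Nat.clog 2 r - 1, ?_, ?_⟩
    · exact Nat.pow_pred_clog_lt_self (by norm_num) (by omega)
    · have h1 : 0 < Nat.clog 2 r := Nat.clog_pos (by norm_num) hr
      have h2 : Nat.clog 2 r - 1 + 1 = Nat.clog 2 r := by omega
      rw [h2]
      exact Nat.le_pow_clog (by norm_num) r
  have hrr : (0 : ℝ) < r := by positivity
  have hγ : 0 < 1 - (2 ^ d : ℝ) / r := by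
    rw [sub_pos, div_lt_one hrr]
    exact_mod_cast hd1
  set C : ℝ := 2 ^ d / c ^ (2 ^ d) with hC
  have hCpos : 0 < C := by positivity
  have htend := tendsto_rpow_atTop hγ
  have hev := (htend.comp tendsto_natCast_atTop_atTop).eventually (Filter.eventually_gt_atTop C)
  obtain ⟨N₀, hN₀⟩ := Filter.eventually_atTop.mp hev
  refine ⟨N₀, ?_⟩
  intro V H _ _ _ _ _ G hinv hact htrans hN hfree
  by_contra hcon
  push Not at hcon
  have h1 := cor_orbit hinv G hact (Fintype.card V) (by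
    intro x
    rw [htrans x, Nat.card_eq_fintype_card]
    simp) r d (by omega) hd2 hfree c hc hcon
  have h2 := hN₀ _ hN
  simp only [Function.comp] at h2
  have hNpos : (0 : ℝ) < (Fintype.card V : ℝ) := by exact_mod_cast Fintype.card_pos
  have h3 : (Fintype.card V : ℝ) ^ (1 - (2 ^ d : ℝ) / r) * (Fintype.card V : ℝ) ^ ((2 ^ d : ℝ) / r) =
      (Fintype.card V : ℝ) := by
    rw [← Real.rpow_add hNpos, sub_add_cancel, Real.rpow_one]
  have h4 : C * (Fintype.card V : ℝ) ^ ((2 ^ d : ℝ) / r) <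
      (Fintype.card V : ℝ) ^ (1 - (2 ^ d : ℝ) / r) * (Fintype.card V : ℝ) ^ ((2 ^ d : ℝ) / r) :=
    mul_lt_mul_of_pos_right h2 (by positivity)
  linarith

end Pool.Agent.H422R3.Sym
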