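import Mathlib

/-!
Examples: K_{2,2}-free and K_{3,3}-free graphs in characteristic 2 with many involutive symmetries.
-/

namespace Pool.Agent.H422R3.Sym

lemma edges_of_regular {V : Type} [Fintype V] (G : SimpleGraph V) (D : ℕ)
    (h : ∀ v, Nat.card (G.neighborSet v) = D) : 2 * Nat.card G.edgeSet = Fintype.card V * D := by
  classical
  rw [Nat.card_eq_fintype_card, ← SimpleGraph.edgeFinset_card, ← G.sum_degrees_eq_twice_card_edges]
  have : ∀ v, G.degree v = D := by
    intro v
    rw [← h v, Nat.card_eq_fintype_card, SimpleGraph.card_neighborSet_eq_degree]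
  simp [this]

lemma free_of {V : Type} (G : SimpleGraph V) (r : ℕ)
    (h : ∀ a b : Fin r → V, Function.Injective a → Function.Injective b →
      (∀ i j, G.Adj (a i) (b j)) → False) :
    (completeBipartiteGraph (Fin r) (Fin r)).Free G := by
  rintro ⟨f⟩
  refine h (fun i => f (Sum.inl i)) (fun j => f (Sum.inr j)) ?_ ?_ ?_
  · intro i j hij
    exact Sum.inl_injective (f.injective hij)
  · intro i j hij
    exact Sum.inr_injective (f.injective hij)
  · intro i j
    exact f.toHom.map_adj (by simp)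

/-! ### first example -/

section ex2

variable (F : Type) [Field F] [CharP F 2]

/-- points `(x,y)` with `x ≠ 0` -/
def V2 : Type := Fˣ × F

instance [Fintype F] [DecidableEq F] : Fintype (V2 F) := inferInstanceAs (Fintype (Fˣ × F))

instance : MulAction (Multiplicative F) (V2 F) where
  smul a p := (p.1, a.toAdd + p.2)
  one_smul p := by
    change (p.1, (0 : F) + p.2) = p
    rw [zero_add]; rfl
  mul_smul a b p := by
    change (p.1, (a.toAdd + b.toAdd) + p.2) = (p.1, a.toAdd + (b.toAdd + p.2))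
    rw [add_assoc]

omit [CharP F 2] in
lemma smul2 (a : Multiplicative F) (p : V2 F) : a • p = ((p.1, a.toAdd + p.2) : Fˣ × F) := rfl

/-- `(x,y) ~ (x',y')` iff `x x' = y + y'` -/
def G2 : SimpleGraph (V2 F) where
  Adj p q := (p.1 : F) * q.1 = p.2 + q.2
  symm := ⟨by
    intro p q h
    rw [mul_comm, add_comm]; exact h⟩
  loopless := ⟨by
    intro p h
    rw [CharTwo.add_self_eq_zero] at h
    have := mul_self_eq_zero.mp h
    exact p.1.ne_zero this⟩

lemma G2_adj (p q : V2 F) : (G2 F).Adj p q ↔ (p.1 : F) * q.1 = p.2 + q.2 := Iff.rfl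

lemma G2_act (a : Multiplicative F) (p q : V2 F) (h : (G2 F).Adj p q) :
    (G2 F).Adj (a • p) (a • q) := by
  rw [G2_adj] at *
  rw [smul2, smul2]
  simp only
  rw [h]
  have := CharTwo.add_self_eq_zero a.toAdd
  linear_combination -this

lemma G2_free : (completeBipartiteGraph (Fin 2) (Fin 2)).Free (G2 F) := by
  apply free_of
  intro a b ha hb hadj
  have h00 := hadj 0 0
  have h01 := hadj 0 1
  have h10 := hadj 1 0
  have h11 := hadj 1 1
  rw [G2_adj] at h00 h01 h10 h11
  have hne : a 0 ≠ a 1 := fun h => by simpa using ha h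
  have hneb : b 0 ≠ b 1 := fun h => by simpa using hb h
  have key : (((a 0).1 : F) - (a 1).1) * (((b 0).1 : F) - (b 1).1) = 0 := by
    linear_combination h00 - h01 - h10 + h11
  rcases mul_eq_zero.mp key with h | h
  · apply hne
    have h1 : ((a 0).1 : F) = (a 1).1 := sub_eq_zero.mp h
    have h2 : (a 0).2 = (a 1).2 := by
      linear_combination (-h00 + h10 + h * ((b 0).1 : F))
    exact Prod.ext (Units.ext h1) h2
  · apply hneb
    have h1 : ((b 0).1 : F) = (b 1).1 := sub_eq_zero.mp h
    have h2 : (b 0).2 = (b 1).2 := by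
      linear_combination (-h00 + h01 + h * ((a 0).1 : F))
    exact Prod.ext (Units.ext h1) h2

lemma G2_nbr (p : V2 F) : Nat.card ((G2 F).neighborSet p) = Nat.card Fˣ := by
  apply Nat.card_congr
  refine
    { toFun := fun q => q.1.1
      invFun := fun x => ⟨((x, (p.1 : F) * x - p.2) : Fˣ × F), ?_⟩
      left_inv := ?_
      right_inv := ?_ }
  · change (p.1 : F) * x = p.2 + ((p.1 : F) * x - p.2)
    ring
  · rintro ⟨q, hq⟩
    rw [SimpleGraph.mem_neighborSet, G2_adj] at hq
    apply Subtype.ext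
    refine Prod.ext rfl ?_
    simp only
    linear_combination hq
  · intro x
    rfl

omit [CharP F 2] in
lemma orbit2 (p : V2 F) : Nat.card (MulAction.orbit (Multiplicative F) p) = Nat.card F := by
  symm
  apply Nat.card_congr
  refine Equiv.ofBijective (fun a : F => ⟨Multiplicative.ofAdd a • p, ⟨_, rfl⟩⟩) ⟨?_, ?_⟩
  · intro a b hab
    have h := congrArg (fun z => (z.1 : Fˣ × F).2) hab
    change a + p.2 = b + p.2 at h
    exact add_right_cancel h
  · rintro ⟨_, ⟨a, rfl⟩⟩
    exact ⟨a.toAdd, rfl⟩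

end ex2

/-! ### second example: the projective norm graph in characteristic 2 -/

section ex3

variable (F : Type) [Field F] [CharP F 2] (n : ℕ)

/-- points `(A,a)` with `a ≠ 0` in the subfield -/
def V3 : Type := F × (powMonoidHom n : Fˣ →* Fˣ).ker

noncomputable instance [Fintype F] : Fintype (V3 F n) := by
  classical
  have : Fintype ((powMonoidHom n : Fˣ →* Fˣ).ker) := Fintype.ofFinite _
  exact inferInstanceAs (Fintype (F × (powMonoidHom n : Fˣ →* Fˣ).ker))

instance : MulAction (Multiplicative F) (V3 F n) where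
  smul a p := (a.toAdd + p.1, p.2)
  one_smul p := by
    change ((0 : F) + p.1, p.2) = p
    rw [zero_add]; rfl
  mul_smul a b p := by
    change ((a.toAdd + b.toAdd) + p.1, p.2) = (a.toAdd + (b.toAdd + p.1), p.2)
    rw [add_assoc]

omit [CharP F 2] in
lemma smul3 (a : Multiplicative F) (p : V3 F n) :
    a • p = ((a.toAdd + p.1, p.2) : F × (powMonoidHom n : Fˣ →* Fˣ).ker) := rfl

/-- `(A,a) ~ (B,b)` iff `(A+B)^(n+2) = a b` (here `n + 1 = q`) -/
def G3 : SimpleGraph (V3 F n) where
  Adj p q := (p.1 + q.1) ^ (n + 2) = ((p.2.1 : Fˣ) : F) * ((q.2.1 : Fˣ) : F)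
  symm := ⟨by
    intro p q h
    rw [mul_comm, add_comm]; exact h⟩
  loopless := ⟨by
    intro p h
    rw [CharTwo.add_self_eq_zero, zero_pow (by omega)] at h
    have := mul_self_eq_zero.mp h.symm
    exact p.2.1.ne_zero this⟩

lemma G3_adj (p q : V3 F n) :
    (G3 F n).Adj p q ↔ (p.1 + q.1) ^ (n + 2) = ((p.2.1 : Fˣ) : F) * ((q.2.1 : Fˣ) : F) := Iff.rfl

lemma G3_act (a : Multiplicative F) (p q : V3 F n) (h : (G3 F n).Adj p q) :
    (G3 F n).Adj (a • p) (a • q) := by
  rw [G3_adj] at *
  rw [smul3, smul3]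
  simp only
  rw [← h]
  congr 1
  have := CharTwo.add_self_eq_zero a.toAdd
  linear_combination this

omit [CharP F 2] in
lemma orbit3 (p : V3 F n) : Nat.card (MulAction.orbit (Multiplicative F) p) = Nat.card F := by
  symm
  apply Nat.card_congr
  refine Equiv.ofBijective (fun a : F => ⟨Multiplicative.ofAdd a • p, ⟨_, rfl⟩⟩) ⟨?_, ?_⟩
  · intro a b hab
    have h := congrArg (fun z => (z.1 : F × (powMonoidHom n : Fˣ →* Fˣ).ker).1) hab
    change a + p.1 = b + p.1 at h
    exact add_right_cancel h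
  · rintro ⟨_, ⟨a, rfl⟩⟩
    exact ⟨a.toAdd, rfl⟩

lemma G3_nbr (hF : ∀ t : Fˣ, t ^ (n * (n + 2)) = 1) (p : V3 F n) :
    Nat.card ((G3 F n).neighborSet p) = Nat.card Fˣ := by
  symm
  apply Nat.card_congr
  have hmem : ∀ t : Fˣ, t ^ (n + 2) * (p.2.1)⁻¹ ∈ (powMonoidHom n : Fˣ →* Fˣ).ker := by
    intro t
    apply Subgroup.mul_mem _ _ (Subgroup.inv_mem _ p.2.2)
    rw [MonoidHom.mem_ker, powMonoidHom_apply, ← pow_mul, mul_comm (n + 2) n]
    exact hF t
  refine
    { toFun := fun t => ⟨((p.1 + (t : F), ⟨t ^ (n + 2) * (p.2.1)⁻¹, hmem t⟩) :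
        F × (powMonoidHom n : Fˣ →* Fˣ).ker), ?_⟩
      invFun := fun q => Units.mk0 (q.1.1 - p.1) ?_
      left_inv := ?_
      right_inv := ?_ }
  · change (p.1 + (p.1 + (t : F))) ^ (n + 2) =
      ((p.2.1 : Fˣ) : F) * ((t ^ (n + 2) * (p.2.1)⁻¹ : Fˣ) : F)
    have h2 : p.1 + (p.1 + (t : F)) = t := by
      have := CharTwo.add_self_eq_zero p.1
      linear_combination this
    rw [h2]
    have h3 := Units.ne_zero p.2.1
    rw [Units.val_mul, Units.val_pow_eq_pow_val, Units.val_inv_eq_inv_val]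
    field_simp
  · intro h
    have hq := q.2
    rw [SimpleGraph.mem_neighborSet, G3_adj] at hq
    have h2 : p.1 + q.1.1 = 0 := by
      have := CharTwo.add_self_eq_zero p.1
      linear_combination this + h
    rw [h2, zero_pow (by omega)] at hq
    have h3 : ((p.2.1 : Fˣ) : F) * ((q.1.2.1 : Fˣ) : F) ≠ 0 := mul_ne_zero (Units.ne_zero _) (Units.ne_zero _)
    exact h3 hq.symm
  · intro t
    apply Units.ext
    simp
  · rintro ⟨q, hq⟩
    rw [SimpleGraph.mem_neighborSet, G3_adj] at hq
    apply Subtype.ext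
    refine Prod.ext ?_ ?_
    · simp
    · apply Subtype.ext
      apply Units.ext
      simp only [Units.val_mul, Units.val_pow_eq_pow_val, Units.val_mk0]
      have h2 : q.1 - p.1 = p.1 + q.1 := by
        have := CharTwo.add_self_eq_zero p.1
        linear_combination -this
      rw [h2, hq]
      have := Units.ne_zero p.2.1
      rw [Units.val_inv_eq_inv_val]
      field_simp

/-- three solutions of a linear relation together with a bilinear one are impossible -/
lemma quad {K : Type} [Field K] (u w c g e1 e2 c2 : K) (hw : w ≠ 0) (hg : g ≠ 0)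
    (Y Z : Fin 3 → K)
    (hY : Function.Injective Y)
    (h1 : ∀ i, u * Z i + w * Y i + c = 0)
    (h2 : ∀ i, g * Y i * Z i + e1 * Y i + e2 * Z i + c2 = 0) : False := by
  have h3 : ∀ i, -(g * w) * Y i ^ 2 + (e1 * u - g * c - e2 * w) * Y i + (c2 * u - e2 * c) = 0 := by
    intro i
    linear_combination u * h2 i - (g * Y i + e2) * h1 i
  have h01 : Y 0 - Y 1 ≠ 0 := fun h => by simpa using hY (sub_eq_zero.mp h)
  have h02 : Y 0 - Y 2 ≠ 0 := fun h => by simpa using hY (sub_eq_zero.mp h)
  have h12 : Y 1 - Y 2 ≠ 0 := fun h => by simpa using hY (sub_eq_zero.mp h)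
  have a1 : (Y 0 - Y 1) * (-(g * w) * (Y 0 + Y 1) + (e1 * u - g * c - e2 * w)) = 0 := by
    linear_combination h3 0 - h3 1
  have a2 : (Y 0 - Y 2) * (-(g * w) * (Y 0 + Y 2) + (e1 * u - g * c - e2 * w)) = 0 := by
    linear_combination h3 0 - h3 2
  have b1 := (mul_eq_zero.mp a1).resolve_left h01
  have b2 := (mul_eq_zero.mp a2).resolve_left h02
  have b3 : (g * w) * (Y 1 - Y 2) = 0 := by linear_combination b2 - b1
  rcases mul_eq_zero.mp b3 with h | h
  · exact mul_ne_zero hg hw h
  · exact h12 h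

lemma G3_free (σ : F →+* F) (hσ : ∀ x : F, σ x = x ^ (n + 1)) :
    (completeBipartiteGraph (Fin 3) (Fin 3)).Free (G3 F n) := by
  apply free_of
  intro a b ha hb hadj
  have hnorm : ∀ x : F, x ^ (n + 2) = x * σ x := by
    intro x; rw [hσ]; ring
  have hadj' : ∀ i j, ((a i).1 + (b j).1) * σ ((a i).1 + (b j).1) =
      (((a i).2.1 : Fˣ) : F) * (((b j).2.1 : Fˣ) : F) := by
    intro i j
    rw [← hnorm]; exact hadj i j
  have hune : ∀ p : V3 F n, ((p.2.1 : Fˣ) : F) ≠ 0 := fun p => Units.ne_zero _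
  -- the first coordinates are distinct
  have hA : ∀ i j, (a i).1 = (a j).1 → i = j := by
    intro i j hij
    apply ha
    have h1 := hadj' i 0
    have h2 := hadj' j 0
    rw [hij, h2] at h1
    have h3 := mul_right_cancel₀ (hune (b 0)) h1
    exact Prod.ext hij (Subtype.ext (Units.ext h3.symm))
  have hB : ∀ i j, (b i).1 = (b j).1 → i = j := by
    intro i j hij
    apply hb
    have h1 := hadj' 0 i
    have h2 := hadj' 0 j
    rw [hij, h2] at h1
    have h3 := mul_left_cancel₀ (hune (a 0)) h1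
    exact Prod.ext hij (Subtype.ext (Units.ext h3.symm))
  have hne : ∀ i j, (a i).1 + (b j).1 ≠ 0 := by
    intro i j h
    have := hadj' i j
    rw [h, zero_mul] at this
    exact mul_ne_zero (hune _) (hune _) this.symm
  -- Y_j
  set A := fun i => (a i).1 with hAd
  set B := fun j => (b j).1 with hBd
  set α := fun i => (((a i).2.1 : Fˣ) : F) with hα
  set β := fun j => (((b j).2.1 : Fˣ) : F) with hβ
  have hαne : ∀ i, α i ≠ 0 := fun i => hune _
  have hβne : ∀ j, β j ≠ 0 := fun j => hune _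
  let Y : Fin 3 → F := fun j => (A 2 + B j)⁻¹
  have hYinj : Function.Injective Y := by
    intro i j hij
    have := inv_injective hij
    exact hB i j (add_left_cancel this)
  have hσinj : Function.Injective σ := σ.injective
  have hD1 : A 0 - A 2 ≠ 0 := fun h => by simpa using hA 0 2 (sub_eq_zero.mp h)
  have hD2 : A 1 - A 2 ≠ 0 := fun h => by simpa using hA 1 2 (sub_eq_zero.mp h)
  have hD12 : A 1 - A 0 ≠ 0 := fun h => by simpa using hA 1 0 (sub_eq_zero.mp h)
  set D := A 0 - A 2 with hDdef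
  set D' := A 1 - A 2 with hD'def
  clear_value D D'
  have hDD : D' - D ≠ 0 := by
    have : D' - D = A 1 - A 0 := by rw [hDdef, hD'def]; ring
    rw [this]; exact hD12
  have hσne : ∀ x : F, x ≠ 0 → σ x ≠ 0 := by
    intro x hx h
    exact hx ((map_eq_zero σ).mp h)
  -- equations
  have eq : ∀ (i : Fin 3) (j : Fin 3), (1 + (A i - A 2) * Y j) * (1 + σ (A i - A 2) * σ (Y j)) =
      α i / α 2 := by
    intro i j
    have h1 := hadj' i j
    have h2 := hadj' 2 j
    have hz : A 2 + B j ≠ 0 := hne 2 j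
    have hzσ := hσne _ hz
    have e1 : (1 + (A i - A 2) * Y j) = (A i + B j) / (A 2 + B j) := by
      simp only [Y]
      field_simp
      ring
    have e2 : (1 + σ (A i - A 2) * σ (Y j)) = σ (A i + B j) / σ (A 2 + B j) := by
      rw [← map_mul, ← map_one σ, ← map_add, e1, map_div₀]
    rw [e1, e2, div_mul_div_comm]
    have h1' : (A i + B j) * σ (A i + B j) = α i * β j := h1
    have h2' : (A 2 + B j) * σ (A 2 + B j) = α 2 * β j := h2
    rw [h1', h2']
    rw [mul_div_mul_right _ _ (hβne j)]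
  refine quad (u := D' * σ D' * σ D - D * σ D * σ D') (w := D' * σ D' * D - D * σ D * D')
    (c := D' * σ D' * (1 - α 0 / α 2) - D * σ D * (1 - α 1 / α 2))
    (g := D * σ D) (e1 := D) (e2 := σ D) (c2 := 1 - α 0 / α 2) ?_ ?_ Y (fun j => σ (Y j)) hYinj ?_ ?_
  · have : D' * σ D' * D - D * σ D * D' = D * D' * σ (D' - D) := by
      rw [map_sub σ D' D]; ring
    rw [this]
    exact mul_ne_zero (mul_ne_zero hD1 hD2) (hσne _ hDD)
  · exact mul_ne_zero hD1 (hσne _ hD1)
  · intro j
    have h1 := eq 0 j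
    have h2 := eq 1 j
    rw [← hDdef] at h1
    rw [← hD'def] at h2
    linear_combination D' * σ D' * h1 - D * σ D * h2
  · intro j
    have h1 := eq 0 j
    rw [← hDdef] at h1
    linear_combination h1

end ex3

end Pool.Agent.H422R3.Sym
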