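import Pool.Agent.H422R3.Sym.Ex

/-!
Third example: a Cayley graph of an elementary abelian 2-group; and the instances over GF(2^m).
-/

namespace Pool.Agent.H422R3.Sym

/-- a quadratic polynomial has at most two roots -/
lemma quad2 {K : Type} [Field K] (g b c : K) (hg : g ≠ 0) (Y : Fin 3 → K)
    (hY : Function.Injective Y) (h : ∀ i, g * Y i ^ 2 + b * Y i + c = 0) : False := by
  have h01 : Y 0 - Y 1 ≠ 0 := fun h => by simpa using hY (sub_eq_zero.mp h)
  have h02 : Y 0 - Y 2 ≠ 0 := fun h => by simpa using hY (sub_eq_zero.mp h)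
  have h12 : Y 1 - Y 2 ≠ 0 := fun h => by simpa using hY (sub_eq_zero.mp h)
  have a1 : (Y 0 - Y 1) * (g * (Y 0 + Y 1) + b) = 0 := by
    linear_combination h 0 - h 1
  have a2 : (Y 0 - Y 2) * (g * (Y 0 + Y 2) + b) = 0 := by
    linear_combination h 0 - h 2
  have b1 := (mul_eq_zero.mp a1).resolve_left h01
  have b2 := (mul_eq_zero.mp a2).resolve_left h02
  have b3 : g * (Y 1 - Y 2) = 0 := by linear_combination b1 - b2
  rcases mul_eq_zero.mp b3 with h | h
  · exact hg h
  · exact h12 h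

section ex4

variable (F : Type) [Field F] [CharP F 2]

/-- points of the plane -/
def V4 : Type := F × F

instance [Fintype F] [DecidableEq F] : Fintype (V4 F) := inferInstanceAs (Fintype (F × F))

instance : MulAction (Multiplicative (F × F)) (V4 F) where
  smul a p := (a.toAdd.1 + p.1, a.toAdd.2 + p.2)
  one_smul p := by
    change ((0 : F) + p.1, (0 : F) + p.2) = p
    rw [zero_add, zero_add]; rfl
  mul_smul a b p := by
    change ((a.toAdd.1 + b.toAdd.1) + p.1, (a.toAdd.2 + b.toAdd.2) + p.2) =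
      (a.toAdd.1 + (b.toAdd.1 + p.1), a.toAdd.2 + (b.toAdd.2 + p.2))
    rw [add_assoc, add_assoc]

omit [CharP F 2] in
lemma smul4 (a : Multiplicative (F × F)) (p : V4 F) :
    a • p = ((a.toAdd.1 + p.1, a.toAdd.2 + p.2) : F × F) := rfl

/-- `(x,y) ~ (x',y')` iff `x ≠ x'` and `y + y' = (x + x')^3` -/
def G4 : SimpleGraph (V4 F) where
  Adj p q := p.1 ≠ q.1 ∧ p.2 + q.2 = (p.1 + q.1) ^ 3
  symm := ⟨by
    intro p q h
    refine ⟨h.1.symm, ?_⟩
    rw [add_comm q.2, add_comm q.1]; exact h.2⟩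
  loopless := ⟨by
    intro p h
    exact h.1 rfl⟩

omit [CharP F 2] in
lemma G4_adj (p q : V4 F) : (G4 F).Adj p q ↔ p.1 ≠ q.1 ∧ p.2 + q.2 = (p.1 + q.1) ^ 3 := Iff.rfl

lemma G4_act (a : Multiplicative (F × F)) (p q : V4 F) (h : (G4 F).Adj p q) :
    (G4 F).Adj (a • p) (a • q) := by
  rw [G4_adj] at *
  rw [smul4, smul4]
  simp only
  refine ⟨fun h' => h.1 (add_left_cancel h'), ?_⟩
  have h1 := CharTwo.add_self_eq_zero a.toAdd.1
  have h2 := CharTwo.add_self_eq_zero a.toAdd.2
  have e : a.toAdd.1 + p.1 + (a.toAdd.1 + q.1) = p.1 + q.1 := by linear_combination h1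
  rw [e, ← h.2]
  linear_combination h2

lemma G4_free : (completeBipartiteGraph (Fin 3) (Fin 3)).Free (G4 F) := by
  apply free_of
  intro a b ha hb hadj
  have h2 : (2 : F) = 0 := CharTwo.two_eq_zero
  have hB : ∀ i j, (b i).1 = (b j).1 → i = j := by
    intro i j hij
    apply hb
    have h1 := (hadj 0 i).2
    have h2 := (hadj 0 j).2
    rw [hij, ← h2] at h1
    exact Prod.ext hij (add_left_cancel h1)
  have hs : (a 0).1 ≠ (a 1).1 := by
    intro h
    have h1 := (hadj 0 0).2
    have h2 := (hadj 1 0).2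
    rw [h, ← h2] at h1
    have := ha (Prod.ext h (add_right_cancel h1))
    simp at this
  set s := (a 0).1 + (a 1).1 with hsdef
  have hs0 : s ≠ 0 := by
    intro h
    apply hs
    have h3 := CharTwo.add_self_eq_zero (a 1).1
    linear_combination h - h3
  -- quadratic equation for x = (b j).1
  have key : ∀ j, s * (b j).1 ^ 2 + ((a 0).1 ^ 2 + (a 1).1 ^ 2) * (b j).1 +
      ((a 0).1 ^ 3 + (a 1).1 ^ 3 - (a 0).2 - (a 1).2) = 0 := by
    intro j
    have h0 := (hadj 0 j).2
    have h1 := (hadj 1 j).2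
    rw [hsdef]
    linear_combination -h0 - h1 + h2 * ((b j).2 - (b j).1 ^ 3 - ((a 0).1 + (a 1).1) * (b j).1 ^ 2
      - ((a 0).1 ^ 2 + (a 1).1 ^ 2) * (b j).1)
  exact quad2 s _ _ hs0 (fun j => (b j).1) (fun i j hij => hB i j hij) key

lemma G4_nbr (p : V4 F) : Nat.card ((G4 F).neighborSet p) = Nat.card Fˣ := by
  symm
  apply Nat.card_congr
  refine
    { toFun := fun t => ⟨((p.1 + (t : F), p.2 + (t : F) ^ 3) : F × F), ?_⟩
      invFun := fun q => Units.mk0 (q.1.1 - p.1) ?_
      left_inv := ?_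
      right_inv := ?_ }
  · change p.1 ≠ p.1 + (t : F) ∧ p.2 + (p.2 + (t : F) ^ 3) = (p.1 + (p.1 + (t : F))) ^ 3
    have h1 := CharTwo.add_self_eq_zero p.1
    have h2 := CharTwo.add_self_eq_zero p.2
    refine ⟨fun h => t.ne_zero ?_, ?_⟩
    · linear_combination -h
    · have e : p.1 + (p.1 + (t : F)) = t := by linear_combination h1
      rw [e]
      linear_combination h2
  · intro h
    have hq := q.2
    exact hq.1 (sub_eq_zero.mp h).symm
  · intro t
    apply Units.ext
    simp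
  · rintro ⟨q, hq⟩
    have hq2 : p.2 + q.2 = (p.1 + q.1) ^ 3 := hq.2
    apply Subtype.ext
    refine Prod.ext ?_ ?_
    · simp
    · simp only [Units.val_mk0]
      have h1 := CharTwo.add_self_eq_zero p.1
      have h2 := CharTwo.add_self_eq_zero p.2
      have h3 : q.1 - p.1 = p.1 + q.1 := by linear_combination -h1
      rw [h3, ← hq2]
      linear_combination h2

omit [CharP F 2] in
lemma trans4 : MulAction.IsPretransitive (Multiplicative (F × F)) (V4 F) := by
  constructor
  intro p q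
  refine ⟨Multiplicative.ofAdd ((q.1 - p.1, q.2 - p.2) : F × F), ?_⟩
  rw [smul4]
  refine Prod.ext ?_ ?_
  · change (q.1 - p.1) + p.1 = q.1
    ring
  · change (q.2 - p.2) + p.2 = q.2
    ring

end ex4

end Pool.Agent.H422R3.Sym
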