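import Mathlib

/-!
Elementary abelian 2-groups of automorphisms of K_{r,r}-free graphs: the doubling argument.
-/

namespace Pool.Agent.H422R3.Sym

open Finset

variable {V H : Type} [Fintype V] [Group H] [Fintype H] [MulAction H V]

open Classical in
/-- the pairs `(x,y)` such that `K x` and `K y` are completely joined and regular orbits of `K` -/
noncomputable def E (G : SimpleGraph V) (K : Subgroup H) : Finset (V × V) :=
  univ.filter fun p => (∀ k ∈ K, G.Adj p.1 (k • p.2)) ∧ (∀ k ∈ K, k • p.1 = p.1 → k = 1) ∧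
    (∀ k ∈ K, k • p.2 = p.2 → k = 1)

lemma mem_E (G : SimpleGraph V) (K : Subgroup H) (p : V × V) :
    p ∈ E G K ↔ (∀ k ∈ K, G.Adj p.1 (k • p.2)) ∧ (∀ k ∈ K, k • p.1 = p.1 → k = 1) ∧
    (∀ k ∈ K, k • p.2 = p.2 → k = 1) := by
  classical
  simp [E]

/-- Cauchy–Schwarz: the translates of a set of pairs meet the set often -/
lemma cs (f : V × V → ℝ) :
    (Fintype.card H : ℝ) * (∑ p, f p) ^ 2 ≤
      (Fintype.card V : ℝ) ^ 2 * ∑ v : H, ∑ p : V × V, f p * f (p.1, v • p.2) := by
  classical
  -- sum invariance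
  have inv : ∀ (u : H) (F : V × V → ℝ), ∑ p : V × V, F (p.1, u • p.2) = ∑ p, F p := by
    intro u F
    have : ∀ p : V × V, F (p.1, u • p.2) = F ((Equiv.prodCongr (Equiv.refl V) (MulAction.toPerm u)) p) := by
      intro p; rfl
    simp_rw [this]
    exact Equiv.sum_comp _ F
  set g : V × V → ℝ := fun p => ∑ v : H, f (p.1, v • p.2) with hg
  have ginv : ∀ (u : H) (p : V × V), g (p.1, u • p.2) = g p := by
    intro u p
    simp only [hg]
    have : ∀ v : H, f (p.1, v • u • p.2) = f (p.1, (v * u) • p.2) := by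
      intro v; rw [mul_smul]
    simp_rw [this]
    exact Equiv.sum_comp (Equiv.mulRight u) (fun v => f (p.1, v • p.2))
  have hsumg : ∑ p, g p = Fintype.card H * ∑ p, f p := by
    simp only [hg]
    rw [Finset.sum_comm]
    simp_rw [inv]
    rw [Finset.sum_const, nsmul_eq_mul, Finset.card_univ]
  have hfg : (Fintype.card H : ℝ) * ∑ p, f p * g p = ∑ p, g p ^ 2 := by
    have h1 : ∀ u : H, ∑ p, f p * g p = ∑ p : V × V, f (p.1, u • p.2) * g p := by
      intro u
      rw [← inv u (fun p => f p * g p)]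
      apply Finset.sum_congr rfl
      intro p _
      simp only [ginv]
    have h2 : ∑ u : H, ∑ p : V × V, f p * g p = ∑ u : H, ∑ p : V × V, f (p.1, u • p.2) * g p :=
      Finset.sum_congr rfl (fun u _ => h1 u)
    rw [Finset.sum_const, nsmul_eq_mul, Finset.card_univ] at h2
    rw [h2, Finset.sum_comm]
    apply Finset.sum_congr rfl
    intro p _
    rw [← Finset.sum_mul, sq]
  have hcs : (∑ p, g p) ^ 2 ≤ (Fintype.card V : ℝ) ^ 2 * ∑ p, g p ^ 2 := by
    have := sq_sum_le_card_mul_sum_sq (s := (univ : Finset (V × V))) (f := g)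
    rw [Finset.card_univ, Fintype.card_prod] at this
    push_cast at this
    rw [sq (Fintype.card V : ℝ)]
    exact this
  have hswap : ∑ v : H, ∑ p : V × V, f p * f (p.1, v • p.2) = ∑ p, f p * g p := by
    rw [Finset.sum_comm]
    apply Finset.sum_congr rfl
    intro p _
    rw [← Finset.mul_sum]
  rw [hswap]
  have hH : (0 : ℝ) < Fintype.card H := by
    exact_mod_cast Fintype.card_pos
  rw [hsumg, ← hfg] at hcs
  have : (Fintype.card H : ℝ) * ((Fintype.card H : ℝ) * (∑ p, f p) ^ 2) ≤
      (Fintype.card H : ℝ) * ((Fintype.card V : ℝ) ^ 2 * ∑ p, f p * g p) := by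
    nlinarith [hcs]
  exact le_of_mul_le_mul_left this hH

/-- the subgroup generated by `K` and an element `v` -/
def ext (hinv : ∀ a : H, a * a = 1) (K : Subgroup H) (v : H) : Subgroup H where
  carrier := {g | g ∈ K ∨ g * v ∈ K}
  mul_mem' := by
    have comm : ∀ a b : H, a * b = b * a := by
      intro a b
      have h1 := hinv (a * b)
      have h2 := hinv a
      have h3 := hinv b
      calc a * b = a * b * 1 := (mul_one _).symm
        _ = a * b * ((b * a) * (b * a)) := by rw [hinv (b * a)]
        _ = a * (b * b) * a * (b * a) := by group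
        _ = b * a := by rw [h3, mul_one, h2, one_mul]
    intro a b ha hb
    simp only [Set.mem_ofPred_eq] at *
    rcases ha with ha | ha <;> rcases hb with hb | hb
    · exact Or.inl (K.mul_mem ha hb)
    · right
      have := K.mul_mem ha hb
      rwa [← mul_assoc] at this
    · right
      have := K.mul_mem ha hb
      rw [mul_assoc, comm v b, ← mul_assoc] at this
      exact this
    · left
      have := K.mul_mem ha hb
      have e : a * v * (b * v) = a * b := by
        rw [comm b v, ← mul_assoc, mul_assoc a v v, hinv v, mul_one]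
      rwa [e] at this
  one_mem' := Or.inl K.one_mem
  inv_mem' := by
    intro a ha
    have e : a⁻¹ = a := inv_eq_of_mul_eq_one_left (hinv a)
    rw [e]
    exact ha


omit [Fintype H] in
lemma mem_ext (hinv : ∀ a : H, a * a = 1) (K : Subgroup H) (v g : H) :
    g ∈ ext hinv K v ↔ g ∈ K ∨ g * v ∈ K := Iff.rfl

lemma card_ext (hinv : ∀ a : H, a * a = 1) (K : Subgroup H) (v : H) (hv : v ∉ K) :
    Nat.card (ext hinv K v) = 2 * Nat.card K := by
  classical
  have e1 : ∀ a : H, a * v * v = a := fun a => by rw [mul_assoc, hinv v, mul_one]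
  let φ : K ⊕ K ≃ ext hinv K v :=
    { toFun := fun s => match s with
        | Sum.inl k => ⟨k.1, Or.inl k.2⟩
        | Sum.inr k => ⟨k.1 * v, Or.inr (by rw [e1]; exact k.2)⟩
      invFun := fun g => if hg : g.1 ∈ K then Sum.inl ⟨g.1, hg⟩ else
        Sum.inr ⟨g.1 * v, by
          rcases g.2 with h | h
          · exact absurd h hg
          · exact h⟩
      left_inv := by
        intro s
        rcases s with k | k
        · simp
        · have : k.1 * v ∉ K := by
            intro h
            apply hv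
            have := K.mul_mem (K.inv_mem k.2) h
            rwa [← mul_assoc, inv_mul_cancel, one_mul] at this
          simp [this, e1]
      right_inv := by
        intro g
        by_cases hg : g.1 ∈ K
        · simp [hg]
        · simp only [hg, dif_neg, not_false_eq_true]
          apply Subtype.ext
          simp [e1] }
  rw [← Nat.card_congr φ, Nat.card_sum]
  ring

lemma card_bad (K : Subgroup H) (x : V) (h : ℕ) (hx : h ≤ Nat.card (MulAction.orbit H x)) :
    (Nat.card {v : H // ∃ k ∈ K, (k * v) • x = x}) * h ≤ Nat.card K * Nat.card H := by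
  classical
  have h1 : Nat.card {v : H // ∃ k ∈ K, (k * v) • x = x} ≤
      Nat.card K * Nat.card (MulAction.stabilizer H x) := by
    rw [← Nat.card_prod]
    let φ : (K × MulAction.stabilizer H x) → {v : H // ∃ k ∈ K, (k * v) • x = x} :=
      fun p => ⟨(p.1.1)⁻¹ * p.2.1, p.1.1, p.1.2, by
        rw [← mul_assoc, mul_inv_cancel, one_mul]; exact p.2.2⟩
    apply Nat.card_le_card_of_surjective φ
    rintro ⟨v, k, hk, hv⟩
    refine ⟨(⟨k, hk⟩, ⟨k * v, hv⟩), ?_⟩
    apply Subtype.ext
    simp [φ]
  have h2 : Nat.card (MulAction.orbit H x) * Nat.card (MulAction.stabilizer H x) = Nat.card H := by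
    have := MulAction.card_orbit_mul_card_stabilizer_eq_card_group H x
    simpa [Nat.card_eq_fintype_card] using this
  calc Nat.card {v : H // ∃ k ∈ K, (k * v) • x = x} * h
      ≤ (Nat.card K * Nat.card (MulAction.stabilizer H x)) * Nat.card (MulAction.orbit H x) :=
        Nat.mul_le_mul h1 hx
    _ = Nat.card K * (Nat.card (MulAction.orbit H x) * Nat.card (MulAction.stabilizer H x)) := by ring
    _ = Nat.card K * Nat.card H := by rw [h2]

/-- one doubling step -/
lemma step (hinv : ∀ a : H, a * a = 1) (G : SimpleGraph V)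
    (h : ℕ) (hpos : 0 < h) (horb : ∀ x : V, h ≤ Nat.card (MulAction.orbit H x))
    (K : Subgroup H)
    (hτ : 0 < ((E G K).card : ℝ) ^ 2 / (Fintype.card V : ℝ) ^ 2 - 2 * (Nat.card K : ℝ) * ((E G K).card : ℝ) / h) :
    ∃ K' : Subgroup H, Nat.card K' = 2 * Nat.card K ∧
      ((E G K).card : ℝ) ^ 2 / (Fintype.card V : ℝ) ^ 2 - 2 * (Nat.card K : ℝ) * ((E G K).card : ℝ) / h
        ≤ (E G K').card := by
  classical
  set τ := ((E G K).card : ℝ) ^ 2 / (Fintype.card V : ℝ) ^ 2 - 2 * (Nat.card K : ℝ) * ((E G K).card : ℝ) / h with hτd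
  have hH : (0 : ℝ) < Fintype.card H := by exact_mod_cast Fintype.card_pos
  have hV : (0 : ℝ) < Fintype.card V := by
    rcases Nat.eq_zero_or_pos (Fintype.card V) with h0 | h0
    · exfalso
      have : (E G K).card = 0 := by
        rw [Finset.card_eq_zero]
        ext p
        have := Fintype.card_eq_zero_iff.mp h0
        exact (this.false p.1).elim
      rw [this] at hτd
      simp at hτd
      linarith
    · exact_mod_cast h0
  let A : H → Finset (V × V) := fun v => (E G K).filter fun p => (p.1, v • p.2) ∈ E G K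
  let B : H → Finset (V × V) := fun v => (E G K).filter fun p =>
    (∃ k ∈ K, (k * v) • p.1 = p.1) ∨ (∃ k ∈ K, (k * v) • p.2 = p.2)
  have hA : (Fintype.card H : ℝ) * ((E G K).card : ℝ) ^ 2 ≤
      (Fintype.card V : ℝ) ^ 2 * ∑ v : H, ((A v).card : ℝ) := by
    have := cs (H := H) (fun p : V × V => if p ∈ E G K then (1 : ℝ) else 0)
    have e1 : ∑ p : V × V, (if p ∈ E G K then (1 : ℝ) else 0) = (E G K).card := by simp
    have e2 : ∀ v : H, ∑ p : V × V, (if p ∈ E G K then (1 : ℝ) else 0) *
        (if (p.1, v • p.2) ∈ E G K then (1 : ℝ) else 0) = (A v).card := by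
      intro v
      have e3 : ∀ p : V × V, (if p ∈ E G K then (1 : ℝ) else 0) *
        (if (p.1, v • p.2) ∈ E G K then (1 : ℝ) else 0) =
          if p ∈ A v then 1 else 0 := by
        intro p
        by_cases h1 : p ∈ E G K <;> by_cases h2 : (p.1, v • p.2) ∈ E G K <;> simp [A, h1, h2]
      simp_rw [e3]
      simp
    rw [e1] at this
    simp_rw [e2] at this
    exact this
  -- bad elements
  have hbadx : ∀ x : V, ((univ.filter fun v : H => ∃ k ∈ K, (k * v) • x = x).card : ℝ) ≤
      (Nat.card K : ℝ) * Fintype.card H / h := by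
    intro x
    have := card_bad K x h (horb x)
    rw [Nat.card_eq_fintype_card (α := H)] at this
    have e1 : Nat.card {v : H // ∃ k ∈ K, (k * v) • x = x} =
        (univ.filter fun v : H => ∃ k ∈ K, (k * v) • x = x).card := by
      rw [Nat.card_eq_fintype_card, Fintype.card_subtype]
    rw [e1] at this
    rw [le_div_iff₀ (by exact_mod_cast hpos)]
    exact_mod_cast this
  have hB : ∑ v : H, ((B v).card : ℝ) ≤ (E G K).card * (2 * (Nat.card K : ℝ) * Fintype.card H / h) := by
    have e1 : ∀ v : H, ((B v).card : ℝ) = ∑ p ∈ E G K, if ((∃ k ∈ K, (k * v) • p.1 = p.1) ∨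
        (∃ k ∈ K, (k * v) • p.2 = p.2)) then (1 : ℝ) else 0 := by
      intro v
      simp only [B]
      rw [Finset.card_filter]
      push_cast
      rfl
    simp_rw [e1]
    rw [Finset.sum_comm]
    calc ∑ p ∈ E G K, ∑ v : H, (if ((∃ k ∈ K, (k * v) • p.1 = p.1) ∨
        (∃ k ∈ K, (k * v) • p.2 = p.2)) then (1 : ℝ) else 0)
        ≤ ∑ p ∈ E G K, (2 * (Nat.card K : ℝ) * Fintype.card H / h) := by
          apply Finset.sum_le_sum
          intro p _
          have h1 := hbadx p.1
          have h2 := hbadx p.2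
          have e2 : ∑ v : H, (if ((∃ k ∈ K, (k * v) • p.1 = p.1) ∨
            (∃ k ∈ K, (k * v) • p.2 = p.2)) then (1 : ℝ) else 0) ≤
            ∑ v : H, ((if (∃ k ∈ K, (k * v) • p.1 = p.1) then (1 : ℝ) else 0) +
              (if (∃ k ∈ K, (k * v) • p.2 = p.2) then (1 : ℝ) else 0)) := by
            apply Finset.sum_le_sum
            intro v _
            by_cases h1 : (∃ k ∈ K, (k * v) • p.1 = p.1) <;>
              by_cases h2 : (∃ k ∈ K, (k * v) • p.2 = p.2) <;> simp [h1, h2]
          rw [Finset.sum_add_distrib] at e2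
          have e3 : ∀ x : V, ∑ v : H, (if (∃ k ∈ K, (k * v) • x = x) then (1 : ℝ) else 0) =
              ((univ.filter fun v : H => ∃ k ∈ K, (k * v) • x = x).card : ℝ) := by
            intro x
            simp
          rw [e3, e3] at e2
          calc _ ≤ _ := e2
            _ ≤ (Nat.card K : ℝ) * Fintype.card H / h + (Nat.card K : ℝ) * Fintype.card H / h :=
              add_le_add h1 h2
            _ = _ := by ring
      _ = _ := by rw [Finset.sum_const, nsmul_eq_mul]
  -- choose v
  have hex : ∃ v : H, τ ≤ ((A v).card : ℝ) - (B v).card := by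
    by_contra hcon
    push Not at hcon
    have hne : (univ : Finset H).Nonempty := ⟨1, Finset.mem_univ _⟩
    have h1 : ∑ v : H, (((A v).card : ℝ) - (B v).card) < ∑ v : H, τ :=
      Finset.sum_lt_sum_of_nonempty hne (fun v _ => hcon v)
    rw [Finset.sum_sub_distrib, Finset.sum_const, nsmul_eq_mul, Finset.card_univ] at h1
    have h2 : (Fintype.card H : ℝ) * ((E G K).card : ℝ) ^ 2 / (Fintype.card V : ℝ) ^ 2 ≤
        ∑ v : H, ((A v).card : ℝ) := by
      rw [div_le_iff₀ (by positivity)]
      linarith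
    have h3 : (Fintype.card H : ℝ) * τ = (Fintype.card H : ℝ) * ((E G K).card : ℝ) ^ 2 / (Fintype.card V : ℝ) ^ 2
        - (E G K).card * (2 * (Nat.card K : ℝ) * Fintype.card H / h) := by
      rw [hτd]; ring
    linarith
  obtain ⟨v, hv⟩ := hex
  have hsub : (A v \ B v) ⊆ E G (ext hinv K v) := by
    intro p hp
    simp only [A, B, Finset.mem_sdiff, Finset.mem_filter, not_and, not_or] at hp
    obtain ⟨⟨h1, h2⟩, h3⟩ := hp
    obtain ⟨h3a, h3b⟩ := h3 h1
    rw [mem_E] at h1 h2 ⊢
    obtain ⟨a1, a2, a3⟩ := h1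
    obtain ⟨b1, b2, b3⟩ := h2
    have evv : ∀ g : H, g * v * v = g := fun g => by rw [mul_assoc, hinv v, mul_one]
    refine ⟨?_, ?_, ?_⟩
    · intro k hk
      rw [mem_ext] at hk
      rcases hk with hk | hk
      · exact a1 k hk
      · have := b1 _ hk
        simp only at this
        rwa [← mul_smul, evv] at this
    · intro k hk hkx
      rw [mem_ext] at hk
      rcases hk with hk | hk
      · exact a2 k hk hkx
      · exfalso
        apply h3a
        refine ⟨k * v, hk, ?_⟩
        rw [evv]; exact hkx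
    · intro k hk hkx
      rw [mem_ext] at hk
      rcases hk with hk | hk
      · exact a3 k hk hkx
      · exfalso
        apply h3b
        refine ⟨k * v, hk, ?_⟩
        rw [evv]; exact hkx
  have hcard : ((A v).card : ℝ) - (B v).card ≤ (A v \ B v).card := by
    have : (A v).card - (B v).card ≤ (A v \ B v).card := Finset.le_card_sdiff _ _
    have h2 : (A v).card ≤ (A v \ B v).card + (B v).card := by omega
    have h3 : ((A v).card : ℝ) ≤ (A v \ B v).card + (B v).card := by exact_mod_cast h2
    linarith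
  have hcard2 : ((A v \ B v).card : ℝ) ≤ (E G (ext hinv K v)).card := by
    exact_mod_cast Finset.card_le_card hsub
  have hvK : v ∉ K := by
    intro hvK
    have : (A v \ B v) = ∅ := by
      rw [Finset.eq_empty_iff_forall_notMem]
      intro p hp
      simp only [A, B, Finset.mem_sdiff, Finset.mem_filter, not_and, not_or] at hp
      obtain ⟨⟨h1, h2⟩, h3⟩ := hp
      obtain ⟨h3a, h3b⟩ := h3 h1
      exact h3a ⟨v, hvK, by rw [hinv v, one_smul]⟩
    rw [this, Finset.card_empty] at hcard
    push_cast at hcard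
    linarith
  exact ⟨ext hinv K v, card_ext hinv K v hvK, by linarith⟩


lemma card_E_bot (G : SimpleGraph V) : ((E G (⊥ : Subgroup H)).card) = 2 * Nat.card G.edgeSet := by
  classical
  have h1 : E G (⊥ : Subgroup H) = univ.filter fun p : V × V => G.Adj p.1 p.2 := by
    ext p
    rw [mem_E]
    simp [Subgroup.mem_bot]
  rw [h1]
  have h2 := G.sum_degrees_eq_twice_card_edges
  rw [Nat.card_eq_fintype_card, ← SimpleGraph.edgeFinset_card, ← h2]
  rw [Finset.card_filter]
  rw [← Finset.univ_product_univ, Finset.sum_product]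
  apply Finset.sum_congr rfl
  intro x _
  rw [← SimpleGraph.card_neighborFinset_eq_degree, ← Finset.card_filter]
  congr 1
  ext y
  simp

lemma chain (hinv : ∀ a : H, a * a = 1) (G : SimpleGraph V)
    (h : ℕ) (hpos : 0 < h) (horb : ∀ x : V, h ≤ Nat.card (MulAction.orbit H x)) (d : ℕ)
    (x : ℝ) (hx0 : 0 ≤ x) (hx1 : x ≤ 1) (hV : 0 < Fintype.card V)
    (hx : (2 * x) * (Fintype.card V : ℝ) ^ 2 ≤ (E G (⊥ : Subgroup H)).card)
    (hbig : (2 : ℝ) ^ d / h < x ^ (2 ^ d)) :
    ∀ k, k ≤ d → ∃ K : Subgroup H, Nat.card K = 2 ^ k ∧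
      2 * x ^ (2 ^ k) * (Fintype.card V : ℝ) ^ 2 ≤ (E G K).card := by
  have hV' : (0 : ℝ) < (Fintype.card V : ℝ) := by exact_mod_cast hV
  have hh : (0 : ℝ) < (h : ℝ) := by exact_mod_cast hpos
  intro k
  induction k with
  | zero =>
    intro _
    refine ⟨⊥, by simp, ?_⟩
    simpa using hx
  | succ k ih =>
    intro hk
    obtain ⟨K, hK, hE⟩ := ih (by omega)
    have h1 : (2 : ℝ) ^ (k + 1) / h ≤ x ^ (2 ^ k) := by
      calc (2 : ℝ) ^ (k + 1) / h ≤ 2 ^ d / h := by
            apply div_le_div_of_nonneg_right _ hh.le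
            exact pow_le_pow_right₀ (by norm_num) hk
        _ ≤ x ^ (2 ^ d) := hbig.le
        _ ≤ x ^ (2 ^ k) := pow_le_pow_of_le_one hx0 hx1 (Nat.pow_le_pow_right (by norm_num) (by omega))
    have hxk : 0 < x ^ (2 ^ k) := lt_of_lt_of_le (by positivity) h1
    set e : ℝ := ((E G K).card : ℝ) with he
    set M : ℝ := (Fintype.card V : ℝ) ^ 2 with hM
    have hMpos : 0 < M := by positivity
    have hepos : 0 < e := lt_of_lt_of_le (by positivity) hE
    have hKc : (Nat.card K : ℝ) = 2 ^ k := by rw [hK]; push_cast; rfl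
    have h2 : e ^ 2 / M / 2 ≤ e ^ 2 / M - 2 * (Nat.card K : ℝ) * e / h := by
      rw [hKc]
      have h3 : 2 * (2 : ℝ) ^ k * e / h ≤ e ^ 2 / M / 2 := by
        have h4 : 2 * ((2 : ℝ) ^ (k + 1) / h) * M ≤ e := by
          refine le_trans ?_ hE
          have := mul_le_mul_of_nonneg_right h1 hMpos.le
          nlinarith
        have h5 : 2 * ((2 : ℝ) ^ (k + 1) / h) ≤ e / M := by
          rw [le_div_iff₀ hMpos]; exact h4
        have h6 : 2 * ((2 : ℝ) ^ (k + 1) / h) * e ≤ e / M * e :=
          mul_le_mul_of_nonneg_right h5 hepos.le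
        have h7 : 2 * ((2 : ℝ) ^ (k + 1) / h) * e = 2 * (2 * (2 : ℝ) ^ k * e / h) := by
          rw [pow_succ]; ring
        have h8 : e / M * e = e ^ 2 / M := by ring
        linarith
      linarith
    have hτ : 0 < e ^ 2 / M - 2 * (Nat.card K : ℝ) * e / h :=
      lt_of_lt_of_le (by positivity) h2
    obtain ⟨K', hK', hE'⟩ := step hinv G h hpos horb K hτ
    refine ⟨K', by rw [hK', hK, pow_succ]; ring, ?_⟩
    refine le_trans ?_ (le_trans h2 hE')
    have h9 : (2 * x ^ (2 ^ k) * M) ^ 2 ≤ e ^ 2 := pow_le_pow_left₀ (by positivity) hE 2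
    rw [le_div_iff₀ (by norm_num : (0:ℝ) < 2), le_div_iff₀ hMpos]
    have h10 : 2 * x ^ (2 ^ (k + 1)) * M * 2 * M = (2 * x ^ (2 ^ k) * M) ^ 2 := by
      have : x ^ (2 ^ (k + 1)) = x ^ (2 ^ k) * x ^ (2 ^ k) := by
        rw [← pow_add]; congr 1; rw [pow_succ]; ring
      rw [this]; ring
    rw [h10]
    exact h9

omit [Fintype V] [Fintype H] in
lemma embed (G : SimpleGraph V) (hact : ∀ (a : H) (x y : V), G.Adj x y → G.Adj (a • x) (a • y))
    (K : Subgroup H) (r : ℕ) (hr : r ≤ Nat.card K) (hf : Finite K)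
    (x y : V) (h1 : ∀ k ∈ K, G.Adj x (k • y)) (h2 : ∀ k ∈ K, k • x = x → k = 1)
    (h3 : ∀ k ∈ K, k • y = y → k = 1) :
    ¬ (completeBipartiteGraph (Fin r) (Fin r)).Free G := by
  classical
  intro hfree
  apply hfree
  have : Nonempty (Fin r ↪ K) := by
    have : Fintype K := Fintype.ofFinite K
    apply Function.Embedding.nonempty_of_card_le
    rw [Fintype.card_fin, ← Nat.card_eq_fintype_card]
    exact hr
  obtain ⟨ι⟩ := this
  have hinj : ∀ z : V, (∀ k ∈ K, k • z = z → k = 1) → ∀ i j, (ι i).1 • z = (ι j).1 • z → i = j := by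
    intro z hz i j hij
    have : ((ι j).1⁻¹ * (ι i).1) • z = z := by
      rw [mul_smul, hij, inv_smul_smul]
    have := hz _ (K.mul_mem (K.inv_mem (ι j).2) (ι i).2) this
    have := inv_mul_eq_one.mp this
    exact ι.injective (Subtype.ext this.symm)
  have hadj : ∀ i j, G.Adj ((ι i).1 • x) ((ι j).1 • y) := by
    intro i j
    have := hact (ι i).1 _ _ (h1 _ (K.mul_mem (K.inv_mem (ι i).2) (ι j).2))
    rwa [← mul_smul, mul_inv_cancel_left] at this
  refine ⟨⟨⟨fun s => match s with
      | Sum.inl i => (ι i).1 • x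
      | Sum.inr j => (ι j).1 • y, ?_⟩, ?_⟩⟩
  · intro a b hab
    rcases a with a | a <;> rcases b with b | b <;> simp at hab
    · exact hadj a b
    · exact (hadj b a).symm
  · intro a b hab
    rcases a with a | a <;> rcases b with b | b
    · exact congrArg _ (hinj x h2 a b hab)
    · exfalso
      have := hadj a b
      have hab' : (ι a).1 • x = (ι b).1 • y := hab
      rw [hab'] at this
      exact G.loopless.irrefl _ this
    · exfalso
      have := hadj b a
      have hab' : (ι a).1 • y = (ι b).1 • x := hab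
      rw [hab'] at this
      exact G.loopless.irrefl _ this
    · exact congrArg _ (hinj y h3 a b hab)

/-- the main inequality -/
theorem main (hinv : ∀ a : H, a * a = 1) (G : SimpleGraph V)
    (hact : ∀ (a : H) (x y : V), G.Adj x y → G.Adj (a • x) (a • y))
    (h : ℕ) (horb : ∀ x : V, h ≤ Nat.card (MulAction.orbit H x)) (r d : ℕ)
    (hr : r ≤ 2 ^ (d + 1)) (hfree : (completeBipartiteGraph (Fin r) (Fin r)).Free G) :
    Nat.card G.edgeSet ^ (2 ^ d) * h ≤ 2 ^ d * (Fintype.card V ^ 2) ^ (2 ^ d) := by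
  classical
  by_contra hcon
  push Not at hcon
  have hpos : 0 < h := by
    rcases Nat.eq_zero_or_pos h with h0 | h0
    · rw [h0] at hcon; simp at hcon
    · exact h0
  have hV : 0 < Fintype.card V := by
    rcases Nat.eq_zero_or_pos (Fintype.card V) with h0 | h0
    · exfalso
      have : IsEmpty V := Fintype.card_eq_zero_iff.mp h0
      have h2 : Nat.card G.edgeSet = 0 := by
        have h3 := card_E_bot (H := H) G
        have h4 : (E G (⊥ : Subgroup H)).card = 0 := by
          rw [Finset.card_eq_zero]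
          ext p
          exact (this.false p.1).elim
        omega
      rw [h2] at hcon
      have : (0 : ℕ) ^ (2 ^ d) = 0 := by
        apply zero_pow
        positivity
      rw [this] at hcon
      simp at hcon
    · exact h0
  have hV' : (0 : ℝ) < (Fintype.card V : ℝ) := by exact_mod_cast hV
  have hh : (0 : ℝ) < (h : ℝ) := by exact_mod_cast hpos
  set x : ℝ := (Nat.card G.edgeSet : ℝ) / (Fintype.card V : ℝ) ^ 2 with hx
  have hE := card_E_bot (H := H) G
  have hxle : x ≤ 1 := by
    rw [hx, div_le_one (by positivity)]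
    have h1 : (E G (⊥ : Subgroup H)).card ≤ Fintype.card V ^ 2 := by
      have := Finset.card_le_univ (E G (⊥ : Subgroup H))
      rw [Fintype.card_prod] at this
      rw [sq]; exact this
    have : Nat.card G.edgeSet ≤ Fintype.card V ^ 2 := by omega
    exact_mod_cast this
  have hbig : (2 : ℝ) ^ d / h < x ^ (2 ^ d) := by
    rw [hx, div_pow, div_lt_div_iff₀ hh (by positivity)]
    exact_mod_cast hcon
  have hx2 : (2 * x) * (Fintype.card V : ℝ) ^ 2 ≤ (E G (⊥ : Subgroup H)).card := by
    rw [hE, hx]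
    push_cast
    rw [mul_assoc, div_mul_cancel₀ _ (by positivity)]
  obtain ⟨K, hK, hEK⟩ := chain hinv G h hpos horb d x (by positivity) hxle hV hx2 hbig d le_rfl
  set e : ℝ := ((E G K).card : ℝ) with he
  set M : ℝ := (Fintype.card V : ℝ) ^ 2 with hM
  have hMpos : 0 < M := by positivity
  have hxd : 0 < x ^ (2 ^ d) := lt_of_le_of_lt (by positivity) hbig
  have hepos : 0 < e := lt_of_lt_of_le (by positivity) hEK
  have hKc : (Nat.card K : ℝ) = 2 ^ d := by rw [hK]; push_cast; rfl
  have hτ : 0 < e ^ 2 / M - 2 * (Nat.card K : ℝ) * e / h := by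
    rw [hKc]
    have h5 : 2 * ((2 : ℝ) ^ d / h) < e / M := by
      rw [lt_div_iff₀ hMpos]
      refine lt_of_lt_of_le ?_ hEK
      have := mul_lt_mul_of_pos_right hbig hMpos
      nlinarith
    have h6 : 2 * ((2 : ℝ) ^ d / h) * e < e / M * e :=
      mul_lt_mul_of_pos_right h5 hepos
    have h7 : 2 * ((2 : ℝ) ^ d / h) * e = 2 * (2 : ℝ) ^ d * e / h := by ring
    have h8 : e / M * e = e ^ 2 / M := by ring
    linarith
  obtain ⟨K', hK', hE'⟩ := step hinv G h hpos horb K hτ
  have hpos' : 0 < (E G K').card := by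
    have : (0 : ℝ) < (E G K').card := lt_of_lt_of_le hτ hE'
    exact_mod_cast this
  obtain ⟨p, hp⟩ := Finset.card_pos.mp hpos'
  rw [mem_E] at hp
  exact embed G hact K' r (by rw [hK', hK]; rw [pow_succ] at hr; omega) inferInstance p.1 p.2 hp.1 hp.2.1 hp.2.2 hfree

end Pool.Agent.H422R3.Sym
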